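import Pool.Agent.Results.MP_ad51a3_an.MinSphericalArea

open MeasureTheory Set Metric Complex
open scoped ENNReal Real

namespace Pool.Agent.Results.MP_ad51a3_an.RadialWeights

open Pool.Agent.Results.MP_ad51a3_an.MinSphericalArea

/-- `r ^ 4 * w r` is nondecreasing on the positive half line. -/
def GoodWeight (w : ℝ → ℝ≥0∞) : Prop :=
  ∀ r s : ℝ, 0 < r → r ≤ s → ENNReal.ofReal (r ^ 4) * w r ≤ ENNReal.ofReal (s ^ 4) * w s

/-- The weight after the inversion `z ↦ 1 / z`. -/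
noncomputable def invWeight (w : ℝ → ℝ≥0∞) (η : ℂ) : ℝ≥0∞ :=
  ENNReal.ofReal (‖η‖⁻¹ ^ 4) * w ‖η‖⁻¹

lemma measurable_invWeight {w : ℝ → ℝ≥0∞} (hw : GoodWeight w) : Measurable (invWeight w) := by
  have hm : Monotone (fun r : ℝ => if 0 < r then ENNReal.ofReal (r ^ 4) * w r else 0) := by
    intro r s hrs
    by_cases hr : 0 < r
    · simp only [hr, if_true, hr.trans_le hrs]
      exact hw r s hr hrs
    · simp only [hr, if_false]
      exact zero_le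
  have h1 : invWeight w =
      (fun r : ℝ => if 0 < r then ENNReal.ofReal (r ^ 4) * w r else 0) ∘ (fun η : ℂ => ‖η‖⁻¹) := by
    ext η
    simp only [invWeight, Function.comp]
    split_ifs with h
    · rfl
    · have : ‖η‖⁻¹ = 0 := le_antisymm (not_lt.mp h) (by positivity)
      simp [this]
  rw [h1]
  exact hm.measurable.comp (by fun_prop)

lemma lintegral_image_weight {f : ℂ → ℂ} (hf : ClassS f) (w : ℝ → ℝ≥0∞) :
    ∫⁻ z in f '' ball 0 1, w ‖z‖ = ∫⁻ η in (omitted f)ᶜ, invWeight w η := by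
  have h1 : (omitted f)ᶜ = (fun w : ℂ => w⁻¹) '' (f '' ball 0 1 \ {0}) := by
    ext w
    simp only [mem_compl_iff, mem_omitted_iff hf]
    constructor
    · intro h
      push Not at h
      exact ⟨w⁻¹, ⟨h.2, by simpa using h.1⟩, inv_inv w⟩
    · rintro ⟨v, ⟨hv, hv0⟩, rfl⟩
      push Not
      exact ⟨inv_ne_zero hv0, by rw [inv_inv]; exact hv⟩
  have hm : MeasurableSet (f '' ball 0 1 \ {0}) :=
    hf.isOpen_image.measurableSet.diff (measurableSet_singleton 0)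
  rw [h1, lintegral_image_complex hm (g' := fun w => -(w ^ 2)⁻¹)
    (fun x hx => hasDerivAt_inv (fun h => hx.2 h)) (inv_injective.injOn)]
  have h2 : ∫⁻ z in f '' ball 0 1, w ‖z‖ = ∫⁻ z in f '' ball 0 1 \ {0}, w ‖z‖ :=
    setLIntegral_congr (sdiff_null_ae_eq_self (measure_singleton 0)).symm
  rw [h2]
  apply setLIntegral_congr_fun hm
  intro z hz
  have hz0 : z ≠ 0 := fun h => hz.2 h
  have hz1 : ‖z‖ ≠ 0 := norm_ne_zero_iff.mpr hz0
  simp only [invWeight]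
  rw [norm_inv, inv_inv, ← mul_assoc, ← ENNReal.ofReal_mul (by positivity), norm_neg, norm_inv,
    norm_pow]
  have : (‖z‖ ^ 2)⁻¹ ^ 2 * ‖z‖ ^ 4 = 1 := by field_simp
  rw [this, ENNReal.ofReal_one, one_mul]

lemma omitted_id : omitted (fun z : ℂ => z) = closedBall 0 1 := by
  ext w
  rw [mem_omitted_iff classS_id]
  simp only [image_id', mem_ball, dist_zero_right, not_lt, mem_closedBall, norm_inv]
  constructor
  · rintro (h | h)
    · simp [h]
    · by_contra hc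
      push Not at hc
      have := inv_lt_one_of_one_lt₀ hc
      linarith
  · intro h
    by_cases h0 : w = 0
    · exact Or.inl h0
    · right
      exact (one_le_inv₀ (norm_pos_iff.mpr h0)).mpr h

/-- If the omitted set fills the unit disc then the function is the identity. -/
lemma eq_id_of_compl_null {f : ℂ → ℂ} (hf : ClassS f)
    (d2 : volume ((omitted f)ᶜ ∩ ball (0:ℂ) 1) = 0) : ∀ z ∈ ball (0:ℂ) 1, f z = z := by
  have d3 : (omitted f)ᶜ ∩ ball (0:ℂ) 1 = ∅ := by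
    have ho : IsOpen ((omitted f)ᶜ ∩ ball (0:ℂ) 1) := hf.isClosed_omitted.isOpen_compl.inter isOpen_ball
    exact (ho.measure_eq_zero_iff volume).mp d2
  have hb : MapsTo f (ball (0:ℂ) 1) (closedBall (f 0) 1) := by
    intro z hz
    rw [hf.map_zero, mem_closedBall, dist_zero_right]
    by_contra hcon
    push Not at hcon
    have hfz : f z ≠ 0 := by
      intro h; rw [h] at hcon; simp at hcon; linarith
    have hmem : (f z)⁻¹ ∈ (omitted f)ᶜ ∩ ball (0:ℂ) 1 := by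
      refine ⟨?_, ?_⟩
      · intro h
        exact h z hz (inv_mul_cancel₀ hfz)
      · rw [mem_ball, dist_zero_right, norm_inv]
        exact inv_lt_one_of_one_lt₀ hcon
    rw [d3] at hmem
    exact hmem
  have hs := Complex.affine_of_mapsTo_ball_of_norm_dslope_eq_div hf.analytic hb
    (show (0:ℂ) ∈ ball (0:ℂ) 1 by simp) (by rw [dslope_same, hf.deriv_zero]; simp)
  intro z hz
  have := hs hz
  rw [dslope_same, hf.deriv_zero, hf.map_zero] at this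
  simpa using this

theorem main_unit {f : ℂ → ℂ} (hf : ClassS f) {w : ℝ → ℝ≥0∞} (hw : GoodWeight w) :
    ∫⁻ z in ball (0:ℂ) 1, w ‖z‖ ≤ ∫⁻ z in f '' ball 0 1, w ‖z‖ ∧
    (((∀ r : ℝ, 1 < r → w 1 < ENNReal.ofReal (r ^ 4) * w r) ∨
      (∀ r : ℝ, 0 < r → r < 1 → ENNReal.ofReal (r ^ 4) * w r < w 1)) →
     ∫⁻ z in ball (0:ℂ) 1, w ‖z‖ ≠ ⊤ →
     ∫⁻ z in f '' ball 0 1, w ‖z‖ = ∫⁻ z in ball (0:ℂ) 1, w ‖z‖ →
     ∀ z ∈ ball (0:ℂ) 1, f z = z) := by
  set E := omitted f with hE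
  set D : Set ℂ := closedBall (0:ℂ) 1 with hD
  set φ := invWeight w with hφ
  have hEm : MeasurableSet E := hf.isClosed_omitted.measurableSet
  have hDm : MeasurableSet D := measurableSet_closedBall
  have hφm : Measurable φ := measurable_invWeight hw
  have e1 : ∫⁻ z in f '' ball 0 1, w ‖z‖ = ∫⁻ η in Eᶜ, φ η := lintegral_image_weight hf w
  have e2 : ∫⁻ z in ball (0:ℂ) 1, w ‖z‖ = ∫⁻ η in Dᶜ, φ η := by
    have := lintegral_image_weight classS_id w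
    rw [omitted_id] at this
    simpa using this
  have hvol := hf.volume_omitted_le
  have hDvol : volume D = ENNReal.ofReal π := by
    rw [hD, Complex.volume_closedBall]
    simp only [ENNReal.ofReal_one, one_pow, one_mul]
    exact (ENNReal.ofReal_eq_coe_nnreal Real.pi_pos.le).symm
  have hDfin : volume D ≠ ⊤ := by rw [hDvol]; exact ENNReal.ofReal_ne_top
  have h0E : (0:ℂ) ∈ E := (mem_omitted_iff hf 0).2 (Or.inl rfl)
  have p1 : ∀ η ∈ Eᶜ ∩ D, w 1 ≤ φ η := by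
    intro η hη
    have h0 : 0 < ‖η‖ := norm_pos_iff.mpr (fun h => hη.1 (h ▸ h0E))
    have h1 : ‖η‖ ≤ 1 := by simpa [hD] using hη.2
    have := hw 1 ‖η‖⁻¹ one_pos ((one_le_inv₀ h0).mpr h1)
    simpa [hφ, invWeight] using this
  have p2 : ∀ η ∈ E ∩ Dᶜ, φ η ≤ w 1 := by
    intro η hη
    have h1 : 1 < ‖η‖ := by simpa [hD] using hη.2
    have := hw ‖η‖⁻¹ 1 (by positivity) (inv_lt_one_of_one_lt₀ h1).le
    simpa [hφ, invWeight] using this
  rw [e1, e2]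
  have s1 : ∫⁻ η in Eᶜ, φ η = (∫⁻ η in Eᶜ ∩ D, φ η) + ∫⁻ η in Eᶜ ∩ Dᶜ, φ η := by
    rw [← lintegral_inter_add_sdiff _ _ hDm, Set.sdiff_eq]
  have s2 : ∫⁻ η in Dᶜ, φ η = (∫⁻ η in E ∩ Dᶜ, φ η) + ∫⁻ η in Eᶜ ∩ Dᶜ, φ η := by
    rw [← lintegral_inter_add_sdiff _ _ hEm, Set.sdiff_eq, inter_comm Dᶜ E, inter_comm Dᶜ Eᶜ]
  have a1 : ∫⁻ η in E ∩ Dᶜ, φ η ≤ w 1 * volume (E ∩ Dᶜ) := by
    rw [← setLIntegral_const]
    exact setLIntegral_mono measurable_const p2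
  have a2 : w 1 * volume (Eᶜ ∩ D) ≤ ∫⁻ η in Eᶜ ∩ D, φ η := by
    rw [← setLIntegral_const]
    exact setLIntegral_mono hφm p1
  have a3 : volume (E ∩ Dᶜ) ≤ volume (Eᶜ ∩ D) := by
    have b1 : volume E = volume (E ∩ D) + volume (E ∩ Dᶜ) := by
      rw [← Set.sdiff_eq, measure_inter_add_sdiff _ hDm]
    have b2 : volume D = volume (E ∩ D) + volume (Eᶜ ∩ D) := by
      rw [inter_comm E D, inter_comm Eᶜ D, ← Set.sdiff_eq, measure_inter_add_sdiff _ hEm]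
    have b3 : volume (E ∩ D) + volume (E ∩ Dᶜ) ≤ volume (E ∩ D) + volume (Eᶜ ∩ D) := by
      rw [← b1, ← b2, hDvol]; exact hvol
    refine (ENNReal.add_le_add_iff_left ?_).mp b3
    exact ((measure_mono inter_subset_right).trans_lt hDfin.lt_top).ne
  have a4 : ∫⁻ η in E ∩ Dᶜ, φ η ≤ ∫⁻ η in Eᶜ ∩ D, φ η :=
    a1.trans ((mul_le_mul_right a3 _).trans a2)
  rw [s1, s2]
  refine ⟨add_le_add a4 le_rfl, ?_⟩
  intro hstr hfin heq
  have hI : ∫⁻ η in Eᶜ ∩ Dᶜ, φ η ≠ ⊤ := fun h => hfin (by rw [h]; simp)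
  have hK : ∫⁻ η in E ∩ Dᶜ, φ η ≠ ⊤ := fun h => hfin (by rw [h]; simp)
  have hJK : ∫⁻ η in Eᶜ ∩ D, φ η = ∫⁻ η in E ∩ Dᶜ, φ η := (ENNReal.add_left_inj hI).mp heq
  have b1 : ∫⁻ η in E ∩ Dᶜ, φ η = w 1 * volume (E ∩ Dᶜ) :=
    le_antisymm a1 ((mul_le_mul_right a3 _).trans (a2.trans hJK.le))
  have b2 : ∫⁻ η in Eᶜ ∩ D, φ η = w 1 * volume (Eᶜ ∩ D) :=
    le_antisymm (hJK.le.trans (a1.trans (mul_le_mul_right a3 _))) a2
  have key : volume (Eᶜ ∩ D) = 0 := by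
    by_contra hne
    rcases hstr with h | h
    · have hlt : ∫⁻ η in Eᶜ ∩ D, w 1 < ∫⁻ η in Eᶜ ∩ D, φ η := by
        apply setLIntegral_strict_mono (hEm.compl.inter hDm) hne hφm
        · rw [setLIntegral_const, ← b2, hJK]; exact hK
        · have hsph : volume (sphere (0:ℂ) 1) = 0 := Measure.addHaar_sphere _ _ _
          filter_upwards [compl_mem_ae_iff.mpr hsph] with η hη1 hη
          have h0 : 0 < ‖η‖ := norm_pos_iff.mpr (fun h => hη.1 (h ▸ h0E))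
          have h1 : ‖η‖ ≤ 1 := by simpa [hD] using hη.2
          have h2 : ‖η‖ ≠ 1 := by simpa using hη1
          have := h ‖η‖⁻¹ ((one_lt_inv₀ h0).mpr (lt_of_le_of_ne h1 h2))
          simpa [hφ, invWeight] using this
      rw [setLIntegral_const, b2] at hlt
      exact lt_irrefl _ hlt
    · have hw1 : w 1 ≠ 0 := (lt_of_le_of_lt zero_le (h (1/2) (by norm_num) (by norm_num))).ne'
      have hne2 : volume (E ∩ Dᶜ) ≠ 0 := by
        intro h3
        rw [hJK, b1, h3, mul_zero, eq_comm, mul_eq_zero] at b2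
        exact hne (b2.resolve_left hw1)
      have hlt : ∫⁻ η in E ∩ Dᶜ, φ η < ∫⁻ η in E ∩ Dᶜ, w 1 := by
        apply setLIntegral_strict_mono (hEm.inter hDm.compl) hne2 measurable_const hK
        refine Filter.Eventually.of_forall fun η hη => ?_
        have h1 : 1 < ‖η‖ := by simpa [hD] using hη.2
        have := h ‖η‖⁻¹ (by positivity) (inv_lt_one_of_one_lt₀ h1)
        simpa [hφ, invWeight] using this
      rw [setLIntegral_const, b1] at hlt
      exact lt_irrefl _ hlt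
  exact eq_id_of_compl_null hf (measure_mono_null (inter_subset_inter_right _ ball_subset_closedBall) key)

lemma ball_scale {ρ : ℝ} (h0 : 0 < ρ) :
    ball (0:ℂ) ρ = (fun z : ℂ => (ρ:ℂ) * z) '' ball 0 1 := by
  have hρ : (ρ:ℂ) ≠ 0 := by exact_mod_cast h0.ne'
  ext z
  simp only [mem_ball, dist_zero_right, mem_image]
  constructor
  · intro h
    refine ⟨(ρ:ℂ)⁻¹ * z, ?_, by field_simp⟩
    rw [norm_mul, norm_inv, norm_real, Real.norm_eq_abs, abs_of_pos h0, inv_mul_lt_iff₀ h0, mul_one]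
    exact h
  · rintro ⟨x, hx, rfl⟩
    rw [norm_mul, norm_real, Real.norm_eq_abs, abs_of_pos h0]
    nlinarith

lemma image_scale (f : ℂ → ℂ) {ρ : ℝ} (h0 : 0 < ρ) :
    f '' ball 0 ρ = (fun z : ℂ => (ρ:ℂ) * z) '' ((fun z => (ρ:ℂ)⁻¹ * f (ρ * z)) '' ball 0 1) := by
  have hρ : (ρ:ℂ) ≠ 0 := by exact_mod_cast h0.ne'
  rw [image_image, ball_scale h0, image_image]
  apply image_congr
  intro z _
  field_simp

lemma classS_scale {f : ℂ → ℂ} (hf : ClassS f) {ρ : ℝ} (h0 : 0 < ρ) (h1 : ρ ≤ 1) :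
    ClassS (fun z => (ρ:ℂ)⁻¹ * f (ρ * z)) := by
  have hρ : (ρ:ℂ) ≠ 0 := by exact_mod_cast h0.ne'
  have hmem : ∀ z ∈ ball (0:ℂ) 1, (ρ:ℂ) * z ∈ ball (0:ℂ) 1 := by
    intro z hz
    simp only [mem_ball, dist_zero_right] at hz ⊢
    rw [norm_mul, norm_real, Real.norm_eq_abs, abs_of_pos h0]
    nlinarith [norm_nonneg z]
  have hder : ∀ z ∈ ball (0:ℂ) 1,
      HasDerivAt (fun z => (ρ:ℂ)⁻¹ * f (ρ * z)) (deriv f (ρ * z)) z := by
    intro z hz
    have h2 : HasDerivAt f (deriv f (ρ * z)) (ρ * z) :=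
      (hf.analytic.differentiableAt (isOpen_ball.mem_nhds (hmem z hz))).hasDerivAt
    have h3 : HasDerivAt (fun z : ℂ => (ρ:ℂ) * z) (ρ:ℂ) z := by
      simpa using (hasDerivAt_id z).const_mul (ρ:ℂ)
    have h4 := (h2.comp z h3).const_mul (ρ:ℂ)⁻¹
    have h5 : (ρ:ℂ)⁻¹ * (deriv f (ρ * z) * ρ) = deriv f (ρ * z) := by field_simp
    rw [h5] at h4
    exact h4
  refine ⟨fun z hz => (hder z hz).differentiableAt.differentiableWithinAt, ?_, ?_, ?_⟩
  · intro a ha b hb h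
    have h2 : f (ρ * a) = f (ρ * b) := mul_left_cancel₀ (inv_ne_zero hρ) h
    exact mul_left_cancel₀ hρ (hf.univalent (hmem a ha) (hmem b hb) h2)
  · simp [hf.map_zero]
  · rw [(hder 0 (by simp)).deriv, mul_zero, hf.deriv_zero]

lemma lintegral_scale {ρ : ℝ} (h0 : 0 < ρ) {A : Set ℂ} (hA : MeasurableSet A) (w : ℝ → ℝ≥0∞) :
    ∫⁻ z in (fun z : ℂ => (ρ:ℂ) * z) '' A, w ‖z‖ =
      ∫⁻ z in A, ENNReal.ofReal (ρ ^ 2) * w (ρ * ‖z‖) := by
  rw [lintegral_image_complex hA (g' := fun _ => (ρ:ℂ))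
    (fun x _ => by simpa using (hasDerivAt_id x).const_mul (ρ:ℂ))
    (fun a _ b _ h => mul_left_cancel₀ (by exact_mod_cast h0.ne') h)]
  simp [abs_of_pos h0]

theorem main_disc {f : ℂ → ℂ} (hf : ClassS f) {ρ : ℝ} (h0 : 0 < ρ) (h1 : ρ ≤ 1)
    {w : ℝ → ℝ≥0∞} (hw : GoodWeight w) :
    ∫⁻ z in ball (0:ℂ) ρ, w ‖z‖ ≤ ∫⁻ z in f '' ball 0 ρ, w ‖z‖ ∧
    (((∀ r : ℝ, ρ < r → ENNReal.ofReal (ρ ^ 4) * w ρ < ENNReal.ofReal (r ^ 4) * w r) ∨
      (∀ r : ℝ, 0 < r → r < ρ → ENNReal.ofReal (r ^ 4) * w r < ENNReal.ofReal (ρ ^ 4) * w ρ)) →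
     ∫⁻ z in ball (0:ℂ) ρ, w ‖z‖ ≠ ⊤ →
     (∫⁻ z in f '' ball 0 ρ, w ‖z‖ = ∫⁻ z in ball (0:ℂ) ρ, w ‖z‖ ↔
     ∀ z ∈ ball (0:ℂ) 1, f z = z)) := by
  have hρ : (ρ:ℂ) ≠ 0 := by exact_mod_cast h0.ne'
  set v : ℝ → ℝ≥0∞ := fun r => ENNReal.ofReal (ρ ^ 2) * w (ρ * r) with hv
  have hvw : ∀ r : ℝ, ENNReal.ofReal (r ^ 4) * v r =
      ENNReal.ofReal ((ρ ^ 2)⁻¹) * (ENNReal.ofReal ((ρ * r) ^ 4) * w (ρ * r)) := by
    intro r
    simp only [hv]
    rw [← mul_assoc, ← mul_assoc, ← ENNReal.ofReal_mul (by positivity),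
      ← ENNReal.ofReal_mul (by positivity)]
    congr 2
    field_simp
  have hvw1 : v 1 = ENNReal.ofReal ((ρ ^ 2)⁻¹) * (ENNReal.ofReal (ρ ^ 4) * w ρ) := by
    have := hvw 1
    simpa using this
  have hgv : GoodWeight v := by
    intro r s hr hrs
    rw [hvw, hvw]
    exact mul_le_mul_right (hw _ _ (by positivity) (by gcongr)) _
  have hg := classS_scale hf h0 h1
  have m := main_unit hg hgv
  have i1 : ∫⁻ z in f '' ball 0 ρ, w ‖z‖ =
      ∫⁻ z in (fun z => (ρ:ℂ)⁻¹ * f (ρ * z)) '' ball 0 1, v ‖z‖ := by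
    rw [image_scale f h0, lintegral_scale h0 hg.isOpen_image.measurableSet]
  have i2 : ∫⁻ z in ball (0:ℂ) ρ, w ‖z‖ = ∫⁻ z in ball (0:ℂ) 1, v ‖z‖ := by
    rw [ball_scale h0, lintegral_scale h0 measurableSet_ball]
  rw [i1, i2]
  refine ⟨m.1, fun hstr hfin => ⟨fun heq => ?_, fun hid => ?_⟩⟩
  · have hc0 : ENNReal.ofReal ((ρ ^ 2)⁻¹) ≠ 0 := by
      rw [Ne, ENNReal.ofReal_eq_zero, not_le]; positivity
    have hc1 : ENNReal.ofReal ((ρ ^ 2)⁻¹) ≠ ⊤ := ENNReal.ofReal_ne_top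
    have m2 := m.2 (by
      rcases hstr with h | h
      · left
        intro r hr
        rw [hvw1, hvw]
        exact (ENNReal.mul_lt_mul_iff_right hc0 hc1).2 (h (ρ * r) (by nlinarith))
      · right
        intro r hr0 hr1
        rw [hvw1, hvw]
        exact (ENNReal.mul_lt_mul_iff_right hc0 hc1).2 (h (ρ * r) (by positivity) (by nlinarith)))
      hfin heq
    have m3 : ∀ z ∈ ball (0:ℂ) ρ, f z = z := by
      intro z hz
      rw [ball_scale h0] at hz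
      obtain ⟨y, hy, rfl⟩ := hz
      have := m2 y hy
      simp only
      have h5 : f (ρ * y) = ρ * ((ρ:ℂ)⁻¹ * f (ρ * y)) := by field_simp
      rw [h5, this]
    have hA : AnalyticOnNhd ℂ f (ball 0 1) := hf.analytic.analyticOnNhd isOpen_ball
    have hB : AnalyticOnNhd ℂ (fun z : ℂ => z) (ball 0 1) := fun z _ => analyticAt_id
    have := hA.eqOn_of_preconnected_of_eventuallyEq hB (convex_ball 0 1).isPreconnected
      (show (0:ℂ) ∈ ball (0:ℂ) 1 by simp)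
      (Filter.eventually_of_mem (ball_mem_nhds (0:ℂ) h0) m3)
    exact this
  · have : (fun z => (ρ:ℂ)⁻¹ * f (ρ * z)) '' ball 0 1 = ball 0 1 := by
      have h2 : ∀ z ∈ ball (0:ℂ) 1, (ρ:ℂ)⁻¹ * f (ρ * z) = z := by
        intro z hz
        have hmem : (ρ:ℂ) * z ∈ ball (0:ℂ) 1 := by
          simp only [mem_ball, dist_zero_right] at hz ⊢
          rw [norm_mul, norm_real, Real.norm_eq_abs, abs_of_pos h0]
          nlinarith [norm_nonneg z]
        rw [hid _ hmem]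
        field_simp
      rw [image_congr h2]; simp
    rw [this]

lemma lint_sph_ball {ρ : ℝ} (h0 : 0 < ρ) :
    ∫⁻ z in ball (0:ℂ) ρ, ENNReal.ofReal (4 / (1 + ‖z‖ ^ 2) ^ 2) =
      ENNReal.ofReal (4 * π * ρ ^ 2 / (1 + ρ ^ 2)) := by
  rw [← lintegral_indicator measurableSet_ball, ← Complex.lintegral_comp_polarCoord_symm]
  have h1 : ∫⁻ p in polarCoord.target, ENNReal.ofReal p.1 •
      (ball (0:ℂ) ρ).indicator (fun w => ENNReal.ofReal (4 / (1 + ‖w‖ ^ 2) ^ 2)) (Complex.polarCoord.symm p) =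
      ∫⁻ p in (Ioi (0:ℝ)) ×ˢ (Ioo (-π) π),
        (Iio (ρ:ℝ)).indicator (fun r => ENNReal.ofReal (4 * r / (1 + r ^ 2) ^ 2)) p.1 := by
    change ∫⁻ p in (Ioi (0:ℝ)) ×ˢ (Ioo (-π) π), _ = _
    apply setLIntegral_congr_fun (measurableSet_Ioi.prod measurableSet_Ioo)
    rintro ⟨r, θ⟩ ⟨hr, -⟩
    simp only [mem_Ioi] at hr
    simp only [smul_eq_mul]
    have hn : ‖Complex.polarCoord.symm (r, θ)‖ = r := by
      rw [Complex.norm_polarCoord_symm]; exact abs_of_pos hr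
    by_cases h : r < ρ
    · rw [indicator_of_mem (by rw [mem_ball, dist_zero_right, hn]; exact h), indicator_of_mem (by exact h), hn,
        ← ENNReal.ofReal_mul hr.le]
      congr 1
      ring
    · rw [indicator_of_notMem (by rw [mem_ball, dist_zero_right, hn]; exact h), indicator_of_notMem (by exact h)]
      simp
  rw [h1, Measure.volume_eq_prod, ← Measure.prod_restrict]
  have hmeas : Measurable (fun r : ℝ => (Iio (ρ:ℝ)).indicator (fun r => ENNReal.ofReal (4 * r / (1 + r ^ 2) ^ 2)) r) := by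
    apply Measurable.indicator _ measurableSet_Iio
    fun_prop
  rw [lintegral_prod _ (by exact (hmeas.comp measurable_fst).aemeasurable)]
  simp only [lintegral_const, Measure.restrict_apply_univ, Real.volume_Ioo]
  rw [lintegral_mul_const _ hmeas]
  have h2 : ∫⁻ r in Ioi (0:ℝ), (Iio (ρ:ℝ)).indicator (fun r => ENNReal.ofReal (4 * r / (1 + r ^ 2) ^ 2)) r =
      ENNReal.ofReal (2 * ρ ^ 2 / (1 + ρ ^ 2)) := by
    rw [lintegral_indicator measurableSet_Iio, Measure.restrict_restrict measurableSet_Iio]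
    have : Iio ρ ∩ Ioi 0 = Ioo 0 ρ := by ext; simp [and_comm]
    rw [this, Measure.restrict_congr_set Ioo_ae_eq_Ioc, ← ofReal_integral_eq_lintegral_ofReal]
    · rw [← intervalIntegral.integral_of_le h0.le]
      have hint : ∫ r in (0:ℝ)..ρ, 4 * r / (1 + r ^ 2) ^ 2 = (-2 / (1 + ρ ^ 2)) - (-2 / (1 + (0:ℝ) ^ 2)) := by
        apply intervalIntegral.integral_eq_sub_of_hasDerivAt (f := fun r : ℝ => -2 / (1 + r ^ 2))
        · intro r _
          have h3 : HasDerivAt (fun r : ℝ => 1 + r ^ 2) (2 * r) r := by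
            simpa using (hasDerivAt_pow 2 r).const_add 1
          have h4 := (hasDerivAt_const r (-2:ℝ)).div h3 (by positivity)
          have h5 : (0 * (1 + r ^ 2) - -2 * (2 * r)) / (1 + r ^ 2) ^ 2 = 4 * r / (1 + r ^ 2) ^ 2 := by
            ring
          rw [h5] at h4
          exact h4
        · apply Continuous.intervalIntegrable
          apply Continuous.div (by fun_prop) (by fun_prop)
          intro r; positivity
      rw [hint]
      congr 1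
      field_simp
      ring
    · apply (Continuous.integrableOn_Icc _).mono_set Ioc_subset_Icc_self
      apply Continuous.div (by fun_prop) (by fun_prop)
      intro r; positivity
    · rw [Filter.EventuallyLE, ae_restrict_iff' measurableSet_Ioc]
      refine Filter.Eventually.of_forall fun r hr => ?_
      have := hr.1
      simp only [Pi.zero_apply]
      positivity
  rw [h2, ← ENNReal.ofReal_mul (by positivity)]
  congr 1
  ring

lemma sph_lt {r s : ℝ} (hr : 0 < r) (hrs : r < s) :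
    ENNReal.ofReal (r ^ 4) * ENNReal.ofReal (4 / (1 + r ^ 2) ^ 2) <
      ENNReal.ofReal (s ^ 4) * ENNReal.ofReal (4 / (1 + s ^ 2) ^ 2) := by
  have hs : 0 < s := hr.trans hrs
  rw [← ENNReal.ofReal_mul (by positivity), ← ENNReal.ofReal_mul (by positivity)]
  refine (ENNReal.ofReal_lt_ofReal_iff (by positivity)).2 ?_
  have h1 : r ^ 2 / (1 + r ^ 2) < s ^ 2 / (1 + s ^ 2) := by
    rw [div_lt_div_iff₀ (by positivity) (by positivity)]
    nlinarith
  have h2 : 0 ≤ r ^ 2 / (1 + r ^ 2) := by positivity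
  have h3 : r ^ 4 * (4 / (1 + r ^ 2) ^ 2) = 4 * (r ^ 2 / (1 + r ^ 2)) ^ 2 := by
    field_simp
  have h4 : s ^ 4 * (4 / (1 + s ^ 2) ^ 2) = 4 * (s ^ 2 / (1 + s ^ 2)) ^ 2 := by
    field_simp
  rw [h3, h4]
  have h5 : (r ^ 2 / (1 + r ^ 2)) ^ 2 < (s ^ 2 / (1 + s ^ 2)) ^ 2 := by gcongr
  linarith

lemma goodWeight_sph : GoodWeight (fun r => ENNReal.ofReal (4 / (1 + r ^ 2) ^ 2)) := by
  intro r s hr hrs
  rcases hrs.eq_or_lt with rfl | h
  · exact le_rfl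
  · exact (sph_lt hr h).le

/-- **Minimal area over the class `S` for every radial density.**
Let `f` be holomorphic and injective in the unit disc with `f 0 = 0`, `f' 0 = 1`, and let
`0 < ρ ≤ 1`.  For every radial density `w` with `r ^ 4 * w r` nondecreasing, the `w`-area of
`f (|z| < ρ)` is at least the `w`-area of `|z| < ρ`; equality forces `f z = z` as soon as the
latter is finite and `r ^ 4 * w r` is strictly larger than its value at `ρ` to the right of `ρ`,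
or strictly smaller to the left of `ρ`.  For the spherical density this gives the sharp bound
`4 * π * ρ ^ 2 / (1 + ρ ^ 2)` for every `ρ`, and `ρ = 1` is the least spherical area `2 * π`,
attained by the identity only. -/
theorem result :
    IsLeast {a : ℝ≥0∞ | ∃ f : ℂ → ℂ, (DifferentiableOn ℂ f (ball 0 1) ∧ InjOn f (ball 0 1) ∧
        f 0 = 0 ∧ deriv f 0 = 1) ∧
        a = ∫⁻ z in f '' ball 0 1, ENNReal.ofReal (4 / (1 + ‖z‖ ^ 2) ^ 2)}
      (ENNReal.ofReal (2 * π)) ∧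
    ∀ f : ℂ → ℂ, DifferentiableOn ℂ f (ball 0 1) → InjOn f (ball 0 1) →
      f 0 = 0 → deriv f 0 = 1 →
      (∫⁻ z in f '' ball 0 1, ENNReal.ofReal (4 / (1 + ‖z‖ ^ 2) ^ 2) = ENNReal.ofReal (2 * π) ↔
        ∀ z ∈ ball (0:ℂ) 1, f z = z) ∧
      ∀ ρ : ℝ, 0 < ρ → ρ ≤ 1 →
        (ENNReal.ofReal (4 * π * ρ ^ 2 / (1 + ρ ^ 2)) ≤
            ∫⁻ z in f '' ball 0 ρ, ENNReal.ofReal (4 / (1 + ‖z‖ ^ 2) ^ 2) ∧
          (∫⁻ z in f '' ball 0 ρ, ENNReal.ofReal (4 / (1 + ‖z‖ ^ 2) ^ 2) =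
              ENNReal.ofReal (4 * π * ρ ^ 2 / (1 + ρ ^ 2)) ↔ ∀ z ∈ ball (0:ℂ) 1, f z = z)) ∧
        ∀ w : ℝ → ℝ≥0∞,
          (∀ r s : ℝ, 0 < r → r ≤ s →
            ENNReal.ofReal (r ^ 4) * w r ≤ ENNReal.ofReal (s ^ 4) * w s) →
          ∫⁻ z in ball (0:ℂ) ρ, w ‖z‖ ≤ ∫⁻ z in f '' ball 0 ρ, w ‖z‖ ∧
          (((∀ r : ℝ, ρ < r → ENNReal.ofReal (ρ ^ 4) * w ρ < ENNReal.ofReal (r ^ 4) * w r) ∨
            (∀ r : ℝ, 0 < r → r < ρ →
              ENNReal.ofReal (r ^ 4) * w r < ENNReal.ofReal (ρ ^ 4) * w ρ)) →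
            ∫⁻ z in ball (0:ℂ) ρ, w ‖z‖ ≠ ⊤ →
            (∫⁻ z in f '' ball 0 ρ, w ‖z‖ = ∫⁻ z in ball (0:ℂ) ρ, w ‖z‖ ↔
              ∀ z ∈ ball (0:ℂ) 1, f z = z)) := by
  have hsph : ∀ f : ℂ → ℂ, ClassS f → ∀ ρ : ℝ, 0 < ρ → ρ ≤ 1 →
      (ENNReal.ofReal (4 * π * ρ ^ 2 / (1 + ρ ^ 2)) ≤
          ∫⁻ z in f '' ball 0 ρ, ENNReal.ofReal (4 / (1 + ‖z‖ ^ 2) ^ 2) ∧
        (∫⁻ z in f '' ball 0 ρ, ENNReal.ofReal (4 / (1 + ‖z‖ ^ 2) ^ 2) =
            ENNReal.ofReal (4 * π * ρ ^ 2 / (1 + ρ ^ 2)) ↔ ∀ z ∈ ball (0:ℂ) 1, f z = z)) := by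
    intro f hf ρ h0 h1
    have m := main_disc hf h0 h1 goodWeight_sph
    rw [lint_sph_ball h0] at m
    exact ⟨m.1, m.2 (Or.inl fun r hr => sph_lt h0 hr) ENNReal.ofReal_ne_top⟩
  have hone : 4 * π * (1:ℝ) ^ 2 / (1 + 1 ^ 2) = 2 * π := by ring
  refine ⟨⟨⟨fun z => z, ⟨differentiableOn_id, fun _ _ _ _ h => h, rfl, by simp⟩, ?_⟩, ?_⟩, ?_⟩
  · have := ((hsph _ classS_id 1 one_pos le_rfl).2).2 (fun _ _ => rfl)
    rw [hone] at this
    exact this.symm
  · rintro a ⟨f, ⟨h1, h2, h3, h4⟩, rfl⟩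
    have := (hsph f ⟨h1, h2, h3, h4⟩ 1 one_pos le_rfl).1
    rw [hone] at this
    exact this
  · intro f h1 h2 h3 h4
    have hf : ClassS f := ⟨h1, h2, h3, h4⟩
    refine ⟨?_, fun ρ hρ0 hρ1 => ⟨hsph f hf ρ hρ0 hρ1, fun w hw => main_disc hf hρ0 hρ1 hw⟩⟩
    have := (hsph f hf 1 one_pos le_rfl).2
    rw [hone] at this
    exact this

end Pool.Agent.Results.MP_ad51a3_an.RadialWeights
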